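import Pool.Agent.Run7.h461.DetCorner

/-!
# MP_c084f5_al: two consecutive elements with two letters

If `h + a_s + α` and `h + a_s + 2α` involve only the generators `p` and `q`, then there are
`c_p, c_q` with `(c_p + 1) a_p + α ∈ H`, `(c_q + 1) a_q + α ∈ H`, `c_p a_p + c_q a_q + α ∉ H`.
-/

namespace Run7.H461.DetChain

open Q122.DetNS Run7.H461.DetTwo Run7.H461.DetCorner

variable {n : ℕ} {a : Fin n → ℕ}

theorem two_letters {x : ℤ} (hx : InH a x) {p q : Fin n} (hpq : p ≠ q)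
    (hl : ∀ j, j ≠ p → j ≠ q → ¬ InH a (x - a j)) :
    ∃ u v : ℕ, x = (u : ℤ) * a p + (v : ℤ) * a q := by
  classical
  obtain ⟨w, hw⟩ := hx
  refine ⟨w p, w q, ?_⟩
  rw [hw]
  apply Finset.sum_eq_add p q hpq
  · rintro c - ⟨h1, h2⟩
    have h3 : w c = 0 := by
      by_contra hne
      apply hl c h1 h2
      have := sub_mem hw c 1 (Nat.one_le_iff_ne_zero.mpr hne)
      simpa using this
    rw [h3]; simp
  · intro h1; exact absurd (Finset.mem_univ _) h1
  · intro h1; exact absurd (Finset.mem_univ _) h1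

theorem one_letter {x : ℤ} (hx : InH a x) {q : Fin n}
    (hl : ∀ j, j ≠ q → ¬ InH a (x - a j)) : ∃ v : ℕ, x = (v : ℤ) * a q := by
  classical
  obtain ⟨w, hw⟩ := hx
  refine ⟨w q, ?_⟩
  rw [hw]
  apply Finset.sum_eq_single q
  · intro c _ h1
    have h3 : w c = 0 := by
      by_contra hne
      apply hl c h1
      have := sub_mem hw c 1 (Nat.one_le_iff_ne_zero.mpr hne)
      simpa using this
    rw [h3]; simp
  · intro h1; exact absurd (Finset.mem_univ _) h1

/-- The mixed pair is impossible. -/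
theorem no_mixed {h α : ℤ} (hn : 3 ≤ n) (ha : IsMinGen a) (hAP : IsAP a h α) {p q : Fin n}
    {L M u u' : ℕ} (_hL0 : 0 < L) (_hM0 : 0 < M) (hu0 : 0 < u) (hu0' : 0 < u')
    (h1 : (L : ℤ) * a p + α = (u : ℤ) * a q) (h2 : (M : ℤ) * a q + α = (u' : ℤ) * a p)
    (hL : ∀ i : ℕ, i < L → ¬ InH a ((i : ℤ) * a p + α))
    (hM : ∀ i : ℕ, i < M → ¬ InH a ((i : ℤ) * a q + α)) : False := by
  have hg := ha.1
  have hα : 0 < α := hAP.1
  have hsum : ((L : ℤ) - u') * a p + ((M : ℤ) - u) * a q + 2 * α = 0 := by linarith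
  rcases Nat.lt_or_ge u' L with hc | hc
  · rcases Nat.lt_or_ge u M with hd | hd
    · have e1 : (0 : ℤ) ≤ ((L : ℤ) - u') * a p := by
        apply mul_nonneg _ (by positivity)
        have : (u' : ℤ) < L := by exact_mod_cast hc
        linarith
      have e2 : (0 : ℤ) ≤ ((M : ℤ) - u) * a q := by
        apply mul_nonneg _ (by positivity)
        have : (u : ℤ) < M := by exact_mod_cast hd
        linarith
      linarith
    · -- `u' < L`, `u ≥ M`
      have hk : ((L - u' : ℕ) : ℤ) = (L : ℤ) - u' := by push_cast [hc.le]; ring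
      have hk2 : ((u - M : ℕ) : ℤ) = (u : ℤ) - M := by push_cast [hd]; ring
      apply hAP.gap hg (InH.smul (a := a) (L - u') p) (hL (L - u') (by omega)) (r := 2)
        (by omega) (by omega)
      have e1 : ((L - u' : ℕ) : ℤ) * a p + ((2 : ℕ) : ℤ) * α = ((u - M : ℕ) : ℤ) * a q := by
        rw [hk, hk2]; push_cast; linarith
      rw [e1]; exact InH.smul _ _
  · rcases Nat.lt_or_ge u M with hd | hd
    · have hk : ((M - u : ℕ) : ℤ) = (M : ℤ) - u := by push_cast [hd.le]; ring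
      have hk2 : ((u' - L : ℕ) : ℤ) = (u' : ℤ) - L := by push_cast [hc]; ring
      apply hAP.gap hg (InH.smul (a := a) (M - u) q) (hM (M - u) (by omega)) (r := 2)
        (by omega) (by omega)
      have e1 : ((M - u : ℕ) : ℤ) * a q + ((2 : ℕ) : ℤ) * α = ((u' - L : ℕ) : ℤ) * a p := by
        rw [hk, hk2]; push_cast; linarith
      rw [e1]; exact InH.smul _ _
    · have hk : ((u - M : ℕ) : ℤ) = (u : ℤ) - M := by push_cast [hd]; ring
      have hk2 : ((u' - L : ℕ) : ℤ) = (u' : ℤ) - L := by push_cast [hc]; ring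
      apply hAP.gap hg (InH.zero (a := a)) (by simpa using hAP.alpha_not hn) (r := 2)
        (by omega) (by omega)
      have e1 : (0 : ℤ) + ((2 : ℕ) : ℤ) * α =
          ((u' - L : ℕ) : ℤ) * a p + ((u - M : ℕ) : ℤ) * a q := by
        rw [hk, hk2]; push_cast; linarith
      rw [e1]; exact (InH.smul _ _).add (InH.smul _ _)

/-- `μ` is maximal in `D ∩ [0, y]`. -/
def IsMax (a : Fin n → ℕ) (α y μ : ℤ) : Prop :=
  InH a μ ∧ ¬ InH a (μ + α) ∧ InH a (y - μ) ∧
    ∀ l, InH a (y - μ - a l) → InH a (μ + a l + α)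

theorem exists_max {α y x : ℤ} (hx : InH a x) (hx2 : ¬ InH a (x + α)) (hx3 : InH a (y - x))
    (hpos : ∀ i, 0 < a i) : ∃ μ, IsMax a α y μ ∧ InH a (μ - x) := by
  obtain ⟨μ, ⟨h1, h2, h3, h4⟩, h5⟩ := Int.exists_greatest_of_bdd
    (P := fun z => InH a z ∧ ¬ InH a (z + α) ∧ InH a (y - z) ∧ InH a (z - x))
    ⟨y, fun z hz => by have := hz.2.2.1.nonneg; linarith⟩
    ⟨x, hx, hx2, hx3, by simpa using InH.zero⟩
  refine ⟨μ, ⟨h1, h2, h3, ?_⟩, h4⟩
  intro l hl
  by_contra hcon
  have h6 := h5 (μ + a l) ⟨h1.add (InH.gen l), hcon, by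
    have e : y - (μ + a l) = y - μ - a l := by ring
    rw [e]; exact hl, by
    have e : μ + a l - x = μ - x + a l := by ring
    rw [e]; exact h4.add (InH.gen l)⟩
  have : (0 : ℤ) < a l := by exact_mod_cast hpos l
  linarith

/-- Analysis of a maximal element `μ` with the letter `p` in `y - μ`. -/
theorem analyse {h α y : ℤ} (ha : IsMinGen a) (hAP : IsAP a h α)
    {p q : Fin n} (hpq : p ≠ q)
    (hy1 : ∀ j, j ≠ p → j ≠ q → ¬ InH a (y - a j))
    (hy2 : ∀ j, j ≠ p → j ≠ q → ¬ InH a (y + α - a j))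
    {μ : ℤ} (hμ : IsMax a α y μ) (hp : InH a (y - μ - a p)) :
    ∃ P Q u : ℕ, μ = (P : ℤ) * a p + (Q : ℤ) * a q ∧ 0 < u ∧
      ((P + 1 : ℕ) : ℤ) * a p + α = (u : ℤ) * a q ∧
      μ + a p + α = ((Q + u : ℕ) : ℤ) * a q ∧
      (∀ i : ℕ, i < P + 1 → ¬ InH a ((i : ℤ) * a p + α)) := by
  obtain ⟨h1, h2, h3, h4⟩ := hμ
  have hα : 0 < α := hAP.1
  obtain ⟨P, Q, hPQ⟩ := two_letters h1 hpq (fun j hj1 hj2 hcon => hy1 j hj1 hj2 (by
    have e : y - a j = (y - μ) + (μ - a j) := by ring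
    rw [e]; exact h3.add hcon))
  have h5 := h4 p hp
  obtain ⟨t, ht⟩ := one_letter (q := q) h5 (by
    intro j hj hcon
    by_cases hjp : j = p
    · subst hjp
      apply h2
      have e : μ + α = μ + a j + α - a j := by ring
      rw [e]; exact hcon
    · apply hy2 j hjp hj
      have e : y + α - a j = (y - μ - a p) + (μ + a p + α - a j) := by ring
      rw [e]; exact hp.add hcon)
  have hq0 : (0 : ℤ) < a q := by exact_mod_cast (ha.2 q).1
  have hp0 : (0 : ℤ) < a p := by exact_mod_cast (ha.2 p).1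
  have htQ : Q < t := by
    by_contra hcon
    push Not at hcon
    have h6 : (t : ℤ) ≤ Q := by exact_mod_cast hcon
    have h7 : (t : ℤ) * a q ≤ (Q : ℤ) * a q := mul_le_mul_of_nonneg_right h6 hq0.le
    have h8 : (0 : ℤ) ≤ (P : ℤ) * a p := by positivity
    linarith
  refine ⟨P, Q, t - Q, hPQ, by omega, ?_, ?_, ?_⟩
  · have e : ((t - Q : ℕ) : ℤ) = (t : ℤ) - Q := by push_cast [htQ.le]; ring
    rw [e]; push_cast; linarith
  · rw [show Q + (t - Q) = t by omega]; exact ht
  · intro i hi hcon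
    apply h2
    have e : μ + α = ((i : ℤ) * a p + α) + (((P - i : ℕ) : ℤ) * a p + (Q : ℤ) * a q) := by
      have e1 : ((P - i : ℕ) : ℤ) = (P : ℤ) - i := by push_cast [show i ≤ P by omega]; ring
      rw [hPQ, e1]; ring
    rw [e]; exact hcon.add ((InH.smul _ _).add (InH.smul _ _))

theorem main_pq {h α y : ℤ} (hn : 3 ≤ n) (ha : IsMinGen a) (hAP : IsAP a h α)
    {p q : Fin n} (hpq : p ≠ q)
    (hy1 : ∀ j, j ≠ p → j ≠ q → ¬ InH a (y - a j))
    (hy2 : ∀ j, j ≠ p → j ≠ q → ¬ InH a (y + α - a j))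
    (hb1 : ∀ x, InH a x → ¬ InH a (x + α) → InH a (y + α - x) → InH a (y - x))
    (hyJ : InH a (y + α))
    {μ : ℤ} (hμ : IsMax a α y μ) (hp : InH a (y - μ - a p)) :
    ∃ P Q : ℕ, InH a (((P + 1 : ℕ) : ℤ) * a p + α) ∧ InH a (((Q + 1 : ℕ) : ℤ) * a q + α) ∧
      ¬ InH a ((P : ℤ) * a p + (Q : ℤ) * a q + α) := by
  have hpos : ∀ i, 0 < a i := fun i => (ha.2 i).1
  have hα : 0 < α := hAP.1
  have hq0 : (0 : ℤ) < a q := by exact_mod_cast hpos q
  have hp0 : (0 : ℤ) < a p := by exact_mod_cast hpos p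
  obtain ⟨P, Q, u, hPQ, hu0, hrel, htq, hmin⟩ := analyse ha hAP hpq hy1 hy2 hμ hp
  have hy1' : ∀ j, j ≠ q → j ≠ p → ¬ InH a (y - a j) := fun j h1 h2 => hy1 j h2 h1
  have hy2' : ∀ j, j ≠ q → j ≠ p → ¬ InH a (y + α - a j) := fun j h1 h2 => hy2 j h2 h1
  -- no maximal element has the letter `q`
  have hnoq : ∀ ν, IsMax a α y ν → ¬ InH a (y - ν - a q) := by
    intro ν hν hcon
    obtain ⟨P', Q', u', hPQ', hu0', hrel', -, hmin'⟩ :=
      analyse ha hAP hpq.symm hy1' hy2' hν hcon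
    exact no_mixed hn ha hAP (Nat.succ_pos P) (Nat.succ_pos P') hu0 hu0' hrel hrel' hmin hmin'
  -- every maximal element is of the form `y - c p`
  have hform : ∀ ν, IsMax a α y ν → ∃ c : ℕ, 0 < c ∧ y - ν = (c : ℤ) * a p := by
    intro ν hν
    obtain ⟨c, hc⟩ := one_letter (q := p) hν.2.2.1 (by
      intro j hj hcon
      by_cases hjq : j = q
      · subst hjq; exact hnoq ν hν hcon
      · apply hy1 j hj hjq
        have e : y - a j = ν + (y - ν - a j) := by ring
        rw [e]; exact hν.1.add hcon)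
    refine ⟨c, ?_, hc⟩
    rcases Nat.eq_zero_or_pos c with h0 | h0
    · exfalso
      rw [h0] at hc
      have h1 : y = ν := by simp at hc; linarith
      apply hν.2.1
      rw [← h1]; exact hyJ
    · exact h0
  have huniq : ∀ ν, IsMax a α y ν → ν = μ := by
    have key : ∀ ν ν', IsMax a α y ν → IsMax a α y ν' → ∀ c c' : ℕ, 0 < c → c' < c →
        y - ν = (c : ℤ) * a p → y - ν' = (c' : ℤ) * a p → False := by
      intro ν ν' hν hν' c c' hc0 hcc hc hc'
      have h1 : InH a (ν + a p + α) := by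
        apply hν.2.2.2
        have e : y - ν - a p = ((c - 1 : ℕ) : ℤ) * a p := by
          have e1 : ((c - 1 : ℕ) : ℤ) = (c : ℤ) - 1 := by push_cast [hc0]; ring
          rw [hc, e1]; ring
        rw [e]; exact InH.smul _ _
      apply hν'.2.1
      have e : ν' + α = ν + a p + α + ((c - 1 - c' : ℕ) : ℤ) * a p := by
        have e1 : ((c - 1 - c' : ℕ) : ℤ) = (c : ℤ) - 1 - c' := by
          have : c' + 1 ≤ c := hcc
          zify [show c' ≤ c - 1 by omega, show 1 ≤ c by omega]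
        rw [e1]; linarith
      rw [e]; exact h1.add (InH.smul _ _)
    intro ν hν
    obtain ⟨c, hc0, hc⟩ := hform ν hν
    obtain ⟨c', hc0', hc'⟩ := hform μ hμ
    rcases lt_trichotomy c c' with h1 | h1 | h1
    · exact absurd (key μ ν hμ hν c' c hc0' h1 hc' hc) id
    · rw [h1] at hc; linarith
    · exact absurd (key ν μ hν hμ c c' hc0 h1 hc hc') id
  refine ⟨P, Q, by rw [hrel]; exact InH.smul _ _, ?_, by rw [← hPQ]; exact hμ.2.1⟩
  by_contra hno
  -- `x = (Q + 1) q` lies in `D` and below `y + α`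
  obtain ⟨c, hc0, hc⟩ := hform μ hμ
  have hx1 : InH a (((Q + 1 : ℕ) : ℤ) * a q) := InH.smul _ _
  have hx2 : InH a (y + α - ((Q + 1 : ℕ) : ℤ) * a q) := by
    have e : y + α - ((Q + 1 : ℕ) : ℤ) * a q =
        ((c - 1 : ℕ) : ℤ) * a p + ((u - 1 : ℕ) : ℤ) * a q := by
      have e1 : ((c - 1 : ℕ) : ℤ) = (c : ℤ) - 1 := by push_cast [hc0]; ring
      have e2 : ((u - 1 : ℕ) : ℤ) = (u : ℤ) - 1 := by push_cast [hu0]; ring
      rw [e1, e2]
      push_cast at htq ⊢
      linarith
    rw [e]; exact (InH.smul _ _).add (InH.smul _ _)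
  have hx3 := hb1 _ hx1 hno hx2
  obtain ⟨ν, hν, hν2⟩ := exists_max hx1 hno hx3 hpos
  rw [huniq ν hν] at hν2
  -- so `P p - q ∈ H`
  have hw : InH a ((P : ℤ) * a p - a q) := by
    have e : (P : ℤ) * a p - a q = μ - ((Q + 1 : ℕ) : ℤ) * a q := by
      rw [hPQ]; push_cast; ring
    rw [e]; exact hν2
  obtain ⟨w1, w2, hw12⟩ := two_letters hw hpq (by
    intro j hj1 hj2 hcon
    apply hy1 j hj1 hj2
    have e : y - a j = ((P : ℤ) * a p - a q - a j) + (a q + (Q : ℤ) * a q + (y - μ)) := by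
      rw [hPQ]; ring
    rw [e]
    exact hcon.add (((InH.gen q).add (InH.smul _ _)).add hμ.2.2.1))
  have hPw : w1 < P := by
    by_contra hcon
    push Not at hcon
    have h1 : (P : ℤ) ≤ w1 := by exact_mod_cast hcon
    have h2 : (P : ℤ) * a p ≤ (w1 : ℤ) * a p := mul_le_mul_of_nonneg_right h1 hp0.le
    have h3 : (0 : ℤ) ≤ (w2 : ℤ) * a q := by positivity
    linarith
  -- `(P - w1) p = (w2 + 1) q`
  rcases Nat.lt_or_ge u (w2 + 1) with hu | hu
  · have h1 : (u : ℤ) < (w2 : ℤ) + 1 := by exact_mod_cast hu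
    have h2 : (u : ℤ) * a q ≤ ((w2 : ℤ) + 1) * a q := mul_le_mul_of_nonneg_right h1.le hq0.le
    have h3 : (0 : ℤ) ≤ (w1 : ℤ) * a p := by positivity
    push_cast at hrel
    linarith
  · apply hmin (w1 + 1) (by omega)
    have e : ((w1 + 1 : ℕ) : ℤ) * a p + α = ((u - (w2 + 1) : ℕ) : ℤ) * a q := by
      have e1 : ((u - (w2 + 1) : ℕ) : ℤ) = (u : ℤ) - (w2 + 1) := by push_cast [hu]; ring
      rw [e1]
      push_cast at hrel ⊢
      linarith
    rw [e]; exact InH.smul _ _

/-- The two letter lemma. -/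
theorem two_letter_corner {h α : ℤ} (hn : 3 ≤ n) (ha : IsMinGen a) (hAP : IsAP a h α)
    (s : Fin n) {p q : Fin n} (hpq : p ≠ q)
    (hy1 : ∀ j, j ≠ p → j ≠ q → ¬ InH a (h + a s + α - a j))
    (hy2 : ∀ j, j ≠ p → j ≠ q → ¬ InH a (h + a s + α + α - a j)) :
    ∃ P Q : ℕ, InH a (((P + 1 : ℕ) : ℤ) * a p + α) ∧ InH a (((Q + 1 : ℕ) : ℤ) * a q + α) ∧
      ¬ InH a ((P : ℤ) * a p + (Q : ℤ) * a q + α) := by
  have hg := ha.1
  have hpos : ∀ i, 0 < a i := fun i => (ha.2 i).1
  have hs0 : (0 : ℤ) < a s := by exact_mod_cast hpos s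
  have hmem : ∀ j : ℕ, 1 ≤ j → j < n → InH a (h + a s + j * α) := by
    intro j hj1 hj2
    have h1 : h + j * α ∈ PF a := by
      rw [hAP.2]; exact ⟨j, hj1, hj2, rfl⟩
    have h2 := h1.2 (a s) (InH.gen s) hs0
    have e : h + a s + j * α = h + j * α + a s := by ring
    rw [e]; exact h2
  have hY1 : InH a (h + a s + α) := by simpa using hmem 1 (by omega) (by omega)
  have hY2 : InH a (h + a s + α + α) := by
    have := hmem 2 (by omega) (by omega)
    have e : h + a s + α + α = h + a s + ((2 : ℕ) : ℤ) * α := by push_cast; ring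
    rw [e]; exact this
  have hb1 : ∀ x, InH a x → ¬ InH a (x + α) → InH a (h + a s + α + α - x) →
      InH a (h + a s + α - x) := by
    intro x hx hx2 hx3
    have h1 := hAP.dual hg hx hx2
    by_contra hcon
    apply hAP.gap hg (h1.add (InH.gen s)) (by
      have e : h - x + a s + α = h + a s + α - x := by ring
      rw [e]; exact hcon) (r := 2) (by omega) (by omega)
    have e : h - x + a s + ((2 : ℕ) : ℤ) * α = h + a s + α + α - x := by push_cast; ring
    rw [e]; exact hx3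
  obtain ⟨μ, hμ, -⟩ := exists_max (a := a) (α := α) (y := h + a s + α) InH.zero
    (by simpa using hAP.alpha_not hn) (by simpa using hY1) hpos
  obtain ⟨l, hl⟩ := exists_sub hμ.2.2.1 (by
    intro h0
    apply hμ.2.1
    have e : μ + α = h + a s + α + α := by linarith
    rw [e]; exact hY2)
  by_cases hlp : l = p
  · subst hlp
    exact main_pq hn ha hAP hpq hy1 hy2 hb1 hY2 hμ hl
  by_cases hlq : l = q
  · subst hlq
    obtain ⟨Q, P, h1, h2, h3⟩ := main_pq hn ha hAP hpq.symm (fun j h1 h2 => hy1 j h2 h1)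
      (fun j h1 h2 => hy2 j h2 h1) hb1 hY2 hμ hl
    refine ⟨P, Q, h2, h1, ?_⟩
    intro hcon
    apply h3
    have e : (Q : ℤ) * a l + (P : ℤ) * a p + α = (P : ℤ) * a p + (Q : ℤ) * a l + α := by ring
    rw [e]; exact hcon
  · exfalso
    apply hy1 l hlp hlq
    have e : h + a s + α - a l = μ + (h + a s + α - μ - a l) := by ring
    rw [e]; exact hμ.1.add hl

/-- The chain theorem. -/
theorem chain {h α : ℤ} (hn : 3 ≤ n) (ha : IsMinGen a) (hAP : IsAP a h α) (κ : ℕ → Fin n)
    (hκ : ∀ i, i < n - 3 → InH a (a (κ i) + α - a (κ (i + 1)))) :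
    ∃! v : Fin n → ℕ, h = ∑ i, (v i : ℤ) * a i := by
  classical
  have hg := ha.1
  -- differences
  have hdiff : ∀ s d : ℕ, s + d ≤ n - 3 → InH a (a (κ s) + (d : ℤ) * α - a (κ (s + d))) := by
    intro s d
    induction d with
    | zero => intro _; simpa using InH.zero
    | succ d ih =>
      intro hd
      have h1 := (ih (by omega)).add (hκ (s + d) (by omega))
      have e : a (κ s) + ((d + 1 : ℕ) : ℤ) * α - a (κ (s + (d + 1))) =
          a (κ s) + (d : ℤ) * α - a (κ (s + d)) +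
            (a (κ (s + d)) + α - a (κ (s + d + 1))) := by
        rw [show s + (d + 1) = s + d + 1 by ring]; push_cast; ring
      rw [e]; exact h1
  have hinj : ∀ s t : ℕ, s < t → t ≤ n - 3 → κ s ≠ κ t := by
    intro s t hst ht he
    obtain ⟨d, rfl⟩ := Nat.exists_eq_add_of_lt hst
    have h1 := hdiff s (d + 1) (by omega)
    rw [show s + d + 1 = s + (d + 1) by ring] at he
    rw [← he] at h1
    apply hAP.gap hg InH.zero (by simpa using hAP.alpha_not hn) (r := d + 1) (by omega) (by omega)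
    have e : (0 : ℤ) + ((d + 1 : ℕ) : ℤ) * α =
        a (κ s) + ((d + 1 : ℕ) : ℤ) * α - a (κ s) := by ring
    rw [e]; exact h1
  -- the two remaining letters
  set F : Finset (Fin n) := (Finset.range (n - 2)).image κ with hF
  have hFcard : F.card = n - 2 := by
    rw [hF, Finset.card_image_of_injOn, Finset.card_range]
    intro s hs t ht he
    have hs' : s < n - 2 := by simpa using hs
    have ht' : t < n - 2 := by simpa using ht
    rcases lt_trichotomy s t with h1 | h1 | h1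
    · exact absurd he (hinj s t h1 (by omega))
    · exact h1
    · exact absurd he.symm (hinj t s h1 (by omega))
  have hFc : (Fᶜ : Finset (Fin n)).card = 2 := by
    rw [Finset.card_compl, hFcard, Fintype.card_fin]; omega
  obtain ⟨p, q, hpq, hFpq⟩ := Finset.card_eq_two.mp hFc
  have hother : ∀ j, j ≠ p → j ≠ q → ∃ i, i ≤ n - 3 ∧ κ i = j := by
    intro j hjp hjq
    have h1 : j ∉ (Fᶜ : Finset (Fin n)) := by
      rw [hFpq]; simp [hjp, hjq]
    have h2 : j ∈ F := by simpa using h1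
    obtain ⟨i, hi, he⟩ := Finset.mem_image.mp h2
    have hi' : i < n - 2 := by simpa using hi
    exact ⟨i, by omega, he⟩
  have hκp : ∀ i, i ≤ n - 3 → κ i ≠ p ∧ κ i ≠ q := by
    intro i hi
    have h1 : κ i ∈ F := Finset.mem_image.mpr ⟨i, by simp; omega, rfl⟩
    have h2 : κ i ∉ (Fᶜ : Finset (Fin n)) := by simpa using h1
    rw [hFpq] at h2
    simpa using h2
  have havoid : ∀ t : ℕ, 1 ≤ t → t ≤ 2 → ∀ j, j ≠ p → j ≠ q →
      ¬ InH a (h + a (κ (n - 3)) + t * α - a j) := by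
    intro t ht1 ht2 j hjp hjq hcon
    obtain ⟨i, hi, rfl⟩ := hother j hjp hjq
    have h1 := hdiff i (n - 3 - i) (by omega)
    rw [show i + (n - 3 - i) = n - 3 by omega] at h1
    apply hAP.not_mem (j := t + (n - 3 - i)) (by omega) (by omega)
    have e : h + ((t + (n - 3 - i) : ℕ) : ℤ) * α =
        (h + a (κ (n - 3)) + t * α - a (κ i)) +
          (a (κ i) + ((n - 3 - i : ℕ) : ℤ) * α - a (κ (n - 3))) := by
      push_cast; ring
    rw [e]; exact hcon.add h1
  obtain ⟨P, Q, hP, hQ, hPQ⟩ := two_letter_corner hn ha hAP (κ (n - 3)) hpq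
    (by
      intro j hjp hjq hcon
      apply havoid 1 (by omega) (by omega) j hjp hjq
      simpa using hcon)
    (by
      intro j hjp hjq hcon
      apply havoid 2 (by omega) (by omega) j hjp hjq
      have e : h + a (κ (n - 3)) + ((2 : ℕ) : ℤ) * α - a j =
          h + a (κ (n - 3)) + α + α - a j := by push_cast; ring
      rw [e]; exact hcon)
  apply core hn ha hAP (κ (n - 3)) (Pi.single p P + Pi.single q Q)
  · have h1 := hκp (n - 3) (le_refl _)
    simp [h1.1, h1.2]
  · intro j hj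
    by_cases hjp : j = p
    · subst hjp
      have e : (Pi.single j P + Pi.single q Q : Fin n → ℕ) j = P := by simp [hpq]
      rw [e]; exact hP
    by_cases hjq : j = q
    · subst hjq
      have e : (Pi.single p P + Pi.single j Q : Fin n → ℕ) j = Q := by simp [hjp]
      rw [e]; exact hQ
    · have e : (Pi.single p P + Pi.single q Q : Fin n → ℕ) j = 0 := by simp [hjp, hjq]
      rw [e]
      obtain ⟨i, hi, rfl⟩ := hother j hjp hjq
      have hi2 : i < n - 3 := by
        rcases Nat.lt_or_ge i (n - 3) with h1 | h1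
        · exact h1
        · exfalso
          apply hj
          rw [show i = n - 3 by omega]
      have h1 := (hκ i hi2).add (InH.gen (a := a) (κ (i + 1)))
      have e2 : ((0 + 1 : ℕ) : ℤ) * a (κ i) + α =
          a (κ i) + α - a (κ (i + 1)) + a (κ (i + 1)) := by push_cast; ring
      rw [e2]; exact h1
  · rw [S_add, S_single, S_single]; exact hPQ

end Run7.H461.DetChain
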