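import Pool.Agent.Q122.DetNS.CaseB

/-!
# MP_c084f5_al: all but at most two generators `a_j` satisfy `a_j + α ∈ H`

Then `h` has a unique factorization, so condition (3) implies condition (2).
-/

namespace Run7.H461.DetTwo

open Q122.DetNS

variable {n : ℕ} {a : Fin n → ℕ}

theorem sub_mem {h : ℤ} {v : Fin n → ℕ} (hv : h = ∑ i, (v i : ℤ) * a i) (j : Fin n) (c : ℕ)
    (hc : c ≤ v j) : InH a (h - c * a j) := by
  classical
  refine ⟨v - Pi.single j c, ?_⟩
  have h1 : ∀ i, ((v - Pi.single j c : Fin n → ℕ) i : ℤ) * a i =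
      (v i : ℤ) * a i - (if i = j then (c : ℤ) * a j else 0) := by
    intro i
    by_cases hi : i = j
    · subst hi
      simp only [Pi.sub_apply, Pi.single_eq_same, if_true]
      push_cast [hc]
      ring
    · simp [hi]
  simp only [h1]
  rw [Finset.sum_sub_distrib, hv]
  simp

/-- The path argument: if `z - a_p`, `z - a_q ∈ H`, `z - a_p + α`, `z - a_q + α ∉ H`, then
`z + α ∉ H`. -/
theorem path {h α : ℤ} (hn : 3 ≤ n) (ha : IsMinGen a) (hAP : IsAP a h α) {p q : Fin n}
    (hpq : p ≠ q) (hJ : ∀ j, j ≠ p → j ≠ q → InH a (a j + α)) {z : ℤ}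
    (hp1 : InH a (z - a p)) (hp2 : ¬ InH a (z - a p + α))
    (hq1 : InH a (z - a q)) (hq2 : ¬ InH a (z - a q + α)) : ¬ InH a (z + α) := by
  classical
  intro hz
  obtain ⟨hg, hmin⟩ := ha
  have hα : 0 < α := hAP.1
  have hz0 : 0 ≤ z := by
    have h1 := hp1.nonneg
    have h2 : (0 : ℤ) ≤ a p := by positivity
    linarith
  obtain ⟨x0, hx0⟩ := exists_sub hz (by linarith)
  have hnxt : ∀ x : Fin n, ∃ y : Fin n, x ≠ p → x ≠ q → InH a (a x + α - a y) := by
    intro x
    by_cases h1 : x ≠ p ∧ x ≠ q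
    · obtain ⟨y, hy⟩ := exists_sub (hJ x h1.1 h1.2) (by
        have : (0 : ℤ) ≤ a x := by positivity
        linarith)
      exact ⟨y, fun _ _ => hy⟩
    · refine ⟨x, fun h2 h3 => absurd ⟨h2, h3⟩ h1⟩
  choose g hgx using hnxt
  -- the path
  have hpath : ∀ t : ℕ, t < n - 1 → InH a (z + ((t + 1 : ℕ) : ℤ) * α - a (g^[t] x0)) ∧
      g^[t] x0 ≠ p ∧ g^[t] x0 ≠ q := by
    have aux : ∀ t : ℕ, t < n - 1 → InH a (z + ((t + 1 : ℕ) : ℤ) * α - a (g^[t] x0)) →
        g^[t] x0 ≠ p ∧ g^[t] x0 ≠ q := by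
      intro t ht hin
      constructor
      · intro he
        apply hAP.gap hg hp1 hp2 (r := t + 1) (by omega) (by omega)
        rw [he] at hin
        have e : z - a p + ((t + 1 : ℕ) : ℤ) * α = z + ((t + 1 : ℕ) : ℤ) * α - a p := by ring
        rw [e]; exact hin
      · intro he
        apply hAP.gap hg hq1 hq2 (r := t + 1) (by omega) (by omega)
        rw [he] at hin
        have e : z - a q + ((t + 1 : ℕ) : ℤ) * α = z + ((t + 1 : ℕ) : ℤ) * α - a q := by ring
        rw [e]; exact hin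
    intro t
    induction t with
    | zero =>
      intro ht
      have h0 : InH a (z + ((0 + 1 : ℕ) : ℤ) * α - a (g^[0] x0)) := by simpa using hx0
      exact ⟨h0, aux 0 ht h0⟩
    | succ t ih =>
      intro ht
      obtain ⟨h1, h2, h3⟩ := ih (by omega)
      have h4 : InH a (z + ((t + 1 + 1 : ℕ) : ℤ) * α - a (g^[t + 1] x0)) := by
        rw [Function.iterate_succ_apply']
        have h5 := h1.add (hgx (g^[t] x0) h2 h3)
        have e : z + ((t + 1 + 1 : ℕ) : ℤ) * α - a (g (g^[t] x0)) =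
            z + ((t + 1 : ℕ) : ℤ) * α - a (g^[t] x0) +
              (a (g^[t] x0) + α - a (g (g^[t] x0))) := by push_cast; ring
        rw [e]; exact h5
      exact ⟨h4, aux (t + 1) ht h4⟩
  -- differences
  have hdiff : ∀ s d : ℕ, s + d < n - 1 →
      InH a (a (g^[s] x0) + (d : ℤ) * α - a (g^[s + d] x0)) := by
    intro s d
    induction d with
    | zero => intro _; simpa using InH.zero
    | succ d ih =>
      intro hd
      have h1 := ih (by omega)
      obtain ⟨-, h2, h3⟩ := hpath (s + d) (by omega)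
      have h5 := h1.add (hgx (g^[s + d] x0) h2 h3)
      rw [show s + (d + 1) = (s + d) + 1 by ring, Function.iterate_succ_apply']
      have e : a (g^[s] x0) + ((d + 1 : ℕ) : ℤ) * α - a (g (g^[s + d] x0)) =
          a (g^[s] x0) + (d : ℤ) * α - a (g^[s + d] x0) +
            (a (g^[s + d] x0) + α - a (g (g^[s + d] x0))) := by push_cast; ring
      rw [e]; exact h5
  have hinj : ∀ s t : ℕ, s < t → t < n - 1 → g^[s] x0 ≠ g^[t] x0 := by
    intro s t hst ht he
    obtain ⟨d, rfl⟩ := Nat.exists_eq_add_of_lt hst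
    have h1 := hdiff s (d + 1) (by omega)
    rw [show s + d + 1 = s + (d + 1) by ring] at he
    rw [← he] at h1
    apply hAP.gap hg InH.zero (by simpa using hAP.alpha_not hn) (r := d + 1) (by omega) (by omega)
    have e : (0 : ℤ) + ((d + 1 : ℕ) : ℤ) * α =
        a (g^[s] x0) + ((d + 1 : ℕ) : ℤ) * α - a (g^[s] x0) := by ring
    rw [e]; exact h1
  -- counting
  have hcard : (Finset.range (n - 1)).card ≤ ((Finset.univ.erase p).erase q : Finset (Fin n)).card := by
    apply Finset.card_le_card_of_injOn (fun t => g^[t] x0)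
    · intro t ht
      have ht' : t < n - 1 := by simpa using ht
      obtain ⟨-, h2, h3⟩ := hpath t ht'
      simp [h2, h3]
    · intro s hs t ht he
      have hs' : s < n - 1 := by simpa using hs
      have ht' : t < n - 1 := by simpa using ht
      rcases lt_trichotomy s t with h1 | h1 | h1
      · exact absurd he (hinj s t h1 ht')
      · exact h1
      · exact absurd he.symm (hinj t s h1 hs')
  rw [Finset.card_range, Finset.card_erase_of_mem (by simp [hpq.symm]),
    Finset.card_erase_of_mem (Finset.mem_univ _), Finset.card_univ, Fintype.card_fin] at hcard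
  omega

theorem unique_fact {h α : ℤ} (hn : 3 ≤ n) (ha : IsMinGen a) (hAP : IsAP a h α) {p q : Fin n}
    (hpq : p ≠ q) (hJ : ∀ j, j ≠ p → j ≠ q → InH a (a j + α)) :
    ∃! v : Fin n → ℕ, h = ∑ i, (v i : ℤ) * a i := by
  classical
  have hg := ha.1
  have hpos : ∀ i, 0 < a i := fun i => (ha.2 i).1
  have hα : 0 < α := hAP.1
  have hα0 : ¬ InH a α := hAP.alpha_not hn
  obtain ⟨N, hN⟩ := exists_large hg
  have hh1 : ¬ InH a (h + α) := by
    have := hAP.not_mem (j := 1) (by omega) (by omega)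
    simpa using this
  -- `l`
  have hexl : ∃ l : ℕ, InH a ((l : ℤ) * a p + α) := by
    refine ⟨N.toNat, hN _ ?_⟩
    have h1 : N ≤ (N.toNat : ℤ) := Int.self_le_toNat N
    have h2 : (1 : ℤ) ≤ a p := by exact_mod_cast hpos p
    nlinarith [Int.natCast_nonneg N.toNat]
  set l := Nat.find hexl with hl
  have hl1 : InH a ((l : ℤ) * a p + α) := Nat.find_spec hexl
  have hl2 : ∀ i : ℕ, i < l → ¬ InH a ((i : ℤ) * a p + α) := fun i hi => Nat.find_min hexl hi
  have hl0 : 0 < l := by
    rcases Nat.eq_zero_or_pos l with h0 | h0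
    · exfalso; apply hα0; rw [h0] at hl1; simpa using hl1
    · exact h0
  -- `j`
  have hexj : ∃ j : ℕ, InH a (((l - 1 : ℕ) : ℤ) * a p + (j : ℤ) * a q + α) := by
    refine ⟨N.toNat, hN _ ?_⟩
    have h1 : N ≤ (N.toNat : ℤ) := Int.self_le_toNat N
    have h2 : (1 : ℤ) ≤ a q := by exact_mod_cast hpos q
    have h3 : (0 : ℤ) ≤ ((l - 1 : ℕ) : ℤ) * a p := by positivity
    nlinarith [Int.natCast_nonneg N.toNat]
  set j := Nat.find hexj with hj
  have hj1 : InH a (((l - 1 : ℕ) : ℤ) * a p + (j : ℤ) * a q + α) := Nat.find_spec hexj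
  have hj2 : ∀ i : ℕ, i < j → ¬ InH a (((l - 1 : ℕ) : ℤ) * a p + (i : ℤ) * a q + α) :=
    fun i hi => Nat.find_min hexj hi
  have hj0 : 0 < j := by
    rcases Nat.eq_zero_or_pos j with h0 | h0
    · exfalso; apply hl2 (l - 1) (by omega); rw [h0] at hj1; simpa using hj1
    · exact h0
  -- `i`
  have hexi : ∃ i : ℕ, InH a ((i : ℤ) * a p + (j : ℤ) * a q + α) := ⟨l - 1, hj1⟩
  set i := Nat.find hexi with hi
  have hi1 : InH a ((i : ℤ) * a p + (j : ℤ) * a q + α) := Nat.find_spec hexi
  have hi2 : ∀ i' : ℕ, i' < i → ¬ InH a ((i' : ℤ) * a p + (j : ℤ) * a q + α) :=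
    fun i' hi' => Nat.find_min hexi hi'
  have hil : i ≤ l - 1 := Nat.find_min' hexi hj1
  have hi0 : i = 0 := by
    by_contra hne
    have hipos : 1 ≤ i := Nat.one_le_iff_ne_zero.mpr hne
    have ci : ((i - 1 : ℕ) : ℤ) = i - 1 := by push_cast [hipos]; ring
    have cj : ((j - 1 : ℕ) : ℤ) = j - 1 := by push_cast [hj0]; ring
    apply path (z := (i : ℤ) * a p + (j : ℤ) * a q) hn ha hAP hpq hJ ?_ ?_ ?_ ?_ hi1
    · have h1 := (InH.smul (a := a) (i - 1) p).add (InH.smul j q)
      have e : (i : ℤ) * a p + (j : ℤ) * a q - a p = ((i - 1 : ℕ) : ℤ) * a p + (j : ℤ) * a q := by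
        rw [ci]; ring
      rw [e]; exact h1
    · have e : (i : ℤ) * a p + (j : ℤ) * a q - a p + α =
          ((i - 1 : ℕ) : ℤ) * a p + (j : ℤ) * a q + α := by
        rw [ci]; ring
      rw [e]; exact hi2 (i - 1) (by omega)
    · have h1 := (InH.smul (a := a) i p).add (InH.smul (j - 1) q)
      have e : (i : ℤ) * a p + (j : ℤ) * a q - a q = (i : ℤ) * a p + ((j - 1 : ℕ) : ℤ) * a q := by
        rw [cj]; ring
      rw [e]; exact h1
    · intro hcon
      apply hj2 (j - 1) (by omega)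
      have h1 := hcon.add (InH.smul (a := a) (l - 1 - i) p)
      have ck : ((l - 1 - i : ℕ) : ℤ) = ((l - 1 : ℕ) : ℤ) - i := by
        push_cast [hil]; ring
      have e : ((l - 1 : ℕ) : ℤ) * a p + ((j - 1 : ℕ) : ℤ) * a q + α =
          (i : ℤ) * a p + (j : ℤ) * a q - a q + α + ((l - 1 - i : ℕ) : ℤ) * a p := by
        rw [ck, cj]; ring
      rw [e]; exact h1
  have hjJ : InH a ((j : ℤ) * a q + α) := by
    rw [hi0] at hi1; simpa using hi1
  -- `h` equals the corner of the box
  have cl : ((l - 1 : ℕ) : ℤ) = l - 1 := by push_cast [hl0]; ring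
  have cj : ((j - 1 : ℕ) : ℤ) = j - 1 := by push_cast [hj0]; ring
  have hW : InH a (((l - 1 : ℕ) : ℤ) * a p + ((j - 1 : ℕ) : ℤ) * a q) :=
    (InH.smul (l - 1) p).add (InH.smul (j - 1) q)
  have hW2 := hj2 (j - 1) (by omega)
  have hhW := hAP.dual hg hW hW2
  have hhW0 : h = ((l - 1 : ℕ) : ℤ) * a p + ((j - 1 : ℕ) : ℤ) * a q := by
    by_contra hne
    obtain ⟨x, hx⟩ := exists_sub hhW (fun h0 => hne (by linarith))
    apply hh1
    by_cases hxp : x = p
    · subst hxp
      have h1 := (hl1.add (InH.smul (a := a) (j - 1) q)).add hx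
      have e : h + α = (l : ℤ) * a x + α + ((j - 1 : ℕ) : ℤ) * a q +
          (h - (((l - 1 : ℕ) : ℤ) * a x + ((j - 1 : ℕ) : ℤ) * a q) - a x) := by
        rw [cl]; ring
      rw [e]; exact h1
    by_cases hxq : x = q
    · subst hxq
      have h1 := (hjJ.add (InH.smul (a := a) (l - 1) p)).add hx
      have e : h + α = (j : ℤ) * a x + α + ((l - 1 : ℕ) : ℤ) * a p +
          (h - (((l - 1 : ℕ) : ℤ) * a p + ((j - 1 : ℕ) : ℤ) * a x) - a x) := by
        rw [cj]; ring
      rw [e]; exact h1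
    · have h1 := ((hJ x hxp hxq).add hW).add hx
      have e : h + α = a x + α + (((l - 1 : ℕ) : ℤ) * a p + ((j - 1 : ℕ) : ℤ) * a q) +
          (h - (((l - 1 : ℕ) : ℤ) * a p + ((j - 1 : ℕ) : ℤ) * a q) - a x) := by
        ring
      rw [e]; exact h1
  -- the values of a factorization
  have hval : ∀ v : Fin n → ℕ, h = ∑ i, (v i : ℤ) * a i →
      v p = l - 1 ∧ v q = j - 1 ∧ ∀ x, x ≠ p → x ≠ q → v x = 0 := by
    intro v hv
    have hbound : ∀ (x : Fin n) (c : ℕ), InH a ((c : ℤ) * a x + α) → v x < c := by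
      intro x c hc
      by_contra hcon
      apply hh1
      have h1 := (sub_mem hv x c (by omega)).add hc
      have e : h + α = h - (c : ℤ) * a x + ((c : ℤ) * a x + α) := by ring
      rw [e]; exact h1
    have hvp := hbound p l hl1
    have hvq := hbound q j hjJ
    have hv0 : ∀ x, x ≠ p → x ≠ q → v x = 0 := by
      intro x hx1 hx2
      have := hbound x 1 (by simpa using hJ x hx1 hx2)
      omega
    have hs : ∑ i, (v i : ℤ) * a i = (v p : ℤ) * a p + (v q : ℤ) * a q := by
      apply Finset.sum_eq_add p q hpq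
      · rintro c - ⟨h1, h2⟩
        rw [hv0 c h1 h2]; simp
      · intro h1; exact absurd (Finset.mem_univ _) h1
      · intro h1; exact absurd (Finset.mem_univ _) h1
    rw [hs, hhW0] at hv
    have hp' : (0 : ℤ) < a p := by exact_mod_cast hpos p
    have hq' : (0 : ℤ) < a q := by exact_mod_cast hpos q
    have b1 : (v p : ℤ) ≤ ((l - 1 : ℕ) : ℤ) := by exact_mod_cast (by omega : v p ≤ l - 1)
    have b2 : (v q : ℤ) ≤ ((j - 1 : ℕ) : ℤ) := by exact_mod_cast (by omega : v q ≤ j - 1)
    have h3 : (((l - 1 : ℕ) : ℤ) - v p) * a p + (((j - 1 : ℕ) : ℤ) - v q) * a q = 0 := by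
      linarith
    have h4 : 0 ≤ (((l - 1 : ℕ) : ℤ) - v p) * a p := mul_nonneg (by linarith) hp'.le
    have h5 : 0 ≤ (((j - 1 : ℕ) : ℤ) - v q) * a q := mul_nonneg (by linarith) hq'.le
    have h6 : (((l - 1 : ℕ) : ℤ) - v p) * a p = 0 := by linarith
    have h7 : (((j - 1 : ℕ) : ℤ) - v q) * a q = 0 := by linarith
    rcases mul_eq_zero.mp h6 with h8 | h8
    · rcases mul_eq_zero.mp h7 with h9 | h9
      · refine ⟨?_, ?_, hv0⟩
        · have : ((l - 1 : ℕ) : ℤ) = v p := by linarith
          exact_mod_cast this.symm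
        · have : ((j - 1 : ℕ) : ℤ) = v q := by linarith
          exact_mod_cast this.symm
      · exact absurd h9 hq'.ne'
    · exact absurd h8 hp'.ne'
  refine ⟨Pi.single p (l - 1) + Pi.single q (j - 1), ?_, ?_⟩
  · beta_reduce
    rw [hhW0]
    symm
    have h1 : ∀ x, ((Pi.single p (l - 1) + Pi.single q (j - 1) : Fin n → ℕ) x : ℤ) * a x =
        (if x = p then ((l - 1 : ℕ) : ℤ) * a p else 0) +
          (if x = q then ((j - 1 : ℕ) : ℤ) * a q else 0) := by
      intro x
      by_cases hxp : x = p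
      · subst hxp
        simp [hpq]
      · by_cases hxq : x = q
        · subst hxq
          simp [hxp]
        · simp [hxp, hxq, Pi.single_eq_of_ne hxp, Pi.single_eq_of_ne hxq]
    simp only [h1, Finset.sum_add_distrib]
    simp
  · intro v hv
    obtain ⟨h1, h2, h3⟩ := hval v hv
    funext x
    by_cases hxp : x = p
    · subst hxp; simp [hpq, h1]
    · by_cases hxq : x = q
      · subst hxq; simp [hxp, h2]
      · simp [Pi.single_eq_of_ne hxp, Pi.single_eq_of_ne hxq, h3 x hxp hxq]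

end Run7.H461.DetTwo
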